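import Pool.Agent.BSI.Stmts

/-! Squad BSI, row STG (one stage). -/

set_option autoImplicit false

namespace Pool.Agent.BSI.H49

open MvPolynomial Pool.Agent.Helper78_ACIT Pool.Agent.BSH Pool.Agent.BSI

theorem minors_va (E : Type) [Field E] [CharZero E] (k r : ℕ) : Minors k r (va E) := by
  intro f hf _
  have h1 : (Matrix.of fun x y : Fin r => va E (f x) y) =
      Matrix.vandermonde (fun x : Fin r => ((f x : E) + 1)) := by
    ext x y
    rfl
  rw [h1, Matrix.det_vandermonde_ne_zero_iff]
  intro x y hxy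
  have h2 : (f x : E) = (f y : E) := by simpa using hxy
  exact hf (Nat.cast_injective h2)

theorem sub_X_lt {E : Type} [Field E] {k r d : ℕ} {a : ℕ → ℕ → E} {m : ℕ} (hm : m < k) :
    sub k r d a (X m) = X m := by
  unfold sub
  rw [aeval_X, if_neg (by omega)]

theorem sub_stg {E : Type} [Field E] (k r b c : ℕ) (a : ℕ → ℕ → E) (e : ℕ → E) (hr : 1 ≤ r)
    (F : MvPolynomial ℕ E) :
    sub k r (b ^ (c + 1) + 1) a (stg k r b c a e F) = mix k r b (c + 1) a e F := by
  have h : (sub k r (b ^ (c + 1) + 1) a).comp (stg k r b c a e) = mix k r b (c + 1) a e := by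
    apply algHom_ext
    intro i
    rw [AlgHom.comp_apply]
    unfold stg mix
    rw [aeval_X, aeval_X]
    have hrc : r * (c + 1) = r * c + r := by ring
    by_cases h1 : i < k
    · rw [if_pos h1, if_pos h1, sub_X_lt h1]
    rw [if_neg h1, if_neg h1]
    by_cases h2 : i < k + r * c
    · rw [if_pos h2, if_pos (by omega), map_sum]
      refine Finset.sum_congr rfl fun m hm => ?_
      rw [Finset.mem_range] at hm
      rw [map_mul, map_pow, sub_X_lt hm]
      congr 1
      exact AlgHom.commutes _ _
    rw [if_neg h2]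
    by_cases h3 : i < k + r * (c + 1)
    · rw [if_pos h3, if_pos h3]
      obtain ⟨j, hj⟩ : ∃ j, i = k + (r * c + j) := ⟨i - (k + r * c), by omega⟩
      have hjr : j < r := by omega
      have e1 : i - (k + r * c) = j := by omega
      have e2 : i - k = r * c + j := by omega
      rw [e1, e2, Nat.mul_add_mod, Nat.mod_eq_of_lt hjr, Nat.mul_add_div (by omega),
        Nat.div_eq_of_lt hjr, add_zero]
      unfold sub
      rw [aeval_X, if_pos (by omega), Nat.add_sub_cancel_left]
    · rw [if_neg h3, if_neg h3]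
      exact AlgHom.commutes _ _
  rw [← h]
  rfl

theorem stg_ne {E : Type} [Field E] (k r b c : ℕ) (a : ℕ → ℕ → E) (e : ℕ → E)
    (F : MvPolynomial ℕ E) (hF : mix k r b c a e F ≠ 0) : stg k r b c a e F ≠ 0 := by
  set ψ : MvPolynomial ℕ E →ₐ[E] MvPolynomial ℕ E :=
    aeval fun i => if i < k then X i else C (e (r * c + i)) with hψ
  have hX : ∀ m < k, ψ (X m) = X m := by
    intro m hm
    rw [hψ, aeval_X, if_pos hm]
  have h : ψ.comp (stg k r b c a e) = mix k r b c a e := by
    apply algHom_ext
    intro i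
    rw [AlgHom.comp_apply]
    unfold stg mix
    rw [aeval_X, aeval_X]
    by_cases h1 : i < k
    · rw [if_pos h1, if_pos h1, hX i h1]
    rw [if_neg h1, if_neg h1]
    by_cases h2 : i < k + r * c
    · rw [if_pos h2, if_pos h2, map_sum]
      refine Finset.sum_congr rfl fun m hm => ?_
      rw [Finset.mem_range] at hm
      rw [map_mul, map_pow, hX m hm]
      congr 1
      exact AlgHom.commutes _ _
    rw [if_neg h2, if_neg h2]
    by_cases h3 : i < k + r * (c + 1)
    · rw [if_pos h3, hψ, aeval_X, if_neg (by omega)]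
      congr 2
      omega
    · rw [if_neg h3]
      exact AlgHom.commutes _ _
  intro h0
  apply hF
  rw [← h, AlgHom.comp_apply, h0, map_zero]

/-- **STG** -/
theorem stage (ma2 : Ma2Stmt) (grd : GrdStmt) (num : NumStmt) : StgStmt := by
  intro E _ _ r q c s n e F hr hle hF hmix hcon
  have hq : 1 ≤ q := by
    by_contra h0
    have : q = 0 := by omega
    rw [this] at hle
    omega
  have hb : 2 ≤ 2 ^ q := by
    calc 2 = 2 ^ 1 := (pow_one 2).symm
      _ ≤ 2 ^ q := Nat.pow_le_pow_right (by norm_num) hq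
  have h1 := ma2 E (4 * r) r (2 ^ q) c (3 * s + 4 * r * c) (va E)
    (stg (4 * r) r (2 ^ q) c (va E) e F) hb (minors_va E (4 * r) r)
    (grd E (4 * r) r (2 ^ q) c s n (va E) e F hr hF)
    (stg_ne _ _ _ _ _ _ _ hmix) (by rw [sub_stg _ _ _ _ _ _ hr]; exact hcon)
  exact absurd h1 (not_le.mpr (num r q s c hr hle))

end Pool.Agent.BSI.H49
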